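import Pool.Agent.Y745.UP.Defs
import Pool.Agent.Y755.Fin4
import Pool.Agent.Y914.LD.ZUP

set_option autoImplicit false

/-!
Project UP (helper745), job UP-OUT: moments of zeta of orders at most 4 at distance `≍ 1 / log T` from the critical
line, on both sides.
-/

namespace Pool.Agent.Y496.UP

open Filter Topology MeasureTheory Complex
open Pool.Agent.Y745.UP
open Pool.Agent.Y755
open Pool.Agent.W184 (zn zn_nonneg zn_cont)
open Pool.Agent.H306R2 (dv aF)

/-- the upper bound for the moments, all orders at most 4 -/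
theorem up_all {α : ℝ} (hα : 0 < α) (hα2 : α ≤ 2) : ∃ lam : ℝ, 1 ≤ lam ∧ ∀ᶠ T : ℝ in atTop, ∀ δ : ℝ,
    lam / Real.log T ≤ δ → δ ≤ 1 / 16 → mom (2 * α) (1 / 2 + δ) 0 T ≤ 2 * DD α δ := by
  rcases le_total α 1 with h | h
  · obtain ⟨lam, h1, h2⟩ := mom_up hα h (ε := 1) one_pos
    refine ⟨lam, h1, (h2 0).mono fun T hT δ a b => ?_⟩
    have := hT δ a b
    rwa [show (1 : ℝ) + 1 = 2 by norm_num] at this
  · obtain ⟨lam, h1, h2⟩ := mom_up4 h hα2 (ε := 1) one_pos
    refine ⟨lam, h1, (h2 0).mono fun T hT δ a b => ?_⟩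
    have := hT δ a b
    rwa [show (1 : ℝ) + 1 = 2 by norm_num] at this

/-- the Dirichlet series of the squares decreases -/
theorem DD_anti {α δ δ' : ℝ} (hα : 0 < α) (hδ : 0 < δ) (h : δ ≤ δ') : DD α δ' ≤ DD α δ := by
  unfold DD
  refine (g2_summable hα (lt_of_lt_of_le hδ h)).tsum_le_tsum (fun n => ?_) (g2_summable hα hδ)
  rcases Nat.eq_zero_or_pos n with h0 | h0
  · subst h0
    simp [g2, dv]
  · have hn : (1:ℝ) ≤ n := by exact_mod_cast h0
    unfold g2 wδ
    refine mul_le_mul_of_nonneg_left (mul_le_mul_of_nonneg_right ?_ (by positivity)) (by positivity)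
    exact Real.rpow_le_rpow_of_exponent_le hn (by linarith)

/-- size of the Dirichlet series at `lam / log T` -/
theorem DD_path {α lam : ℝ} (hα : 0 < α) (hl : 1 ≤ lam) : ∃ A : ℝ, 1 ≤ A ∧ ∀ᶠ T : ℝ in atTop,
    DD α (lam / Real.log T) ≤ A * Real.log T ^ (α ^ 2) := by
  have h1 : Tendsto (fun T : ℝ => lam / Real.log T) atTop (nhds 0) :=
    Real.tendsto_log_atTop.const_div_atTop lam
  have h0 : ∀ᶠ T : ℝ in atTop, 0 < lam / Real.log T := by
    filter_upwards [eventually_gt_atTop 1] with T hT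
    exact div_pos (by linarith) (Real.log_pos hT)
  have h2 := DD_asym hα h0 h1
  have hpos : ∀ᶠ T : ℝ in atTop, 0 ≤ (2 * (lam / Real.log T)) ^ (α ^ 2) * DD α (lam / Real.log T) := by
    filter_upwards [h0] with T hT
    have := DD_ge_one hα hT
    exact mul_nonneg (Real.rpow_nonneg (by linarith) _) (by linarith)
  have ha : 0 ≤ aF α := ge_of_tendsto h2 hpos
  refine ⟨aF α + 1, by linarith, ?_⟩
  filter_upwards [h2.eventually (gt_mem_nhds (show aF α < aF α + 1 by linarith)), eventually_gt_atTop 1, h0]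
    with T g1 g2 g3
  have hL : 0 < Real.log T := Real.log_pos g2
  have hD := DD_ge_one hα g3
  have e1 : (2 * (lam / Real.log T)) ^ (α ^ 2) = (2 * lam) ^ (α ^ 2) / Real.log T ^ (α ^ 2) := by
    rw [← mul_div_assoc, Real.div_rpow (by linarith) hL.le]
  have hLp : 0 < Real.log T ^ (α ^ 2) := Real.rpow_pos_of_pos hL _
  rw [e1, div_mul_eq_mul_div, div_lt_iff₀ hLp] at g1
  have h3 : 1 ≤ (2 * lam) ^ (α ^ 2) := Real.one_le_rpow (by linarith) (by positivity)
  calc DD α (lam / Real.log T) ≤ (2 * lam) ^ (α ^ 2) * DD α (lam / Real.log T) :=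
        le_mul_of_one_le_left (by linarith) h3
    _ ≤ _ := g1.le

theorem zn_ii {σ p a b : ℝ} (hσ : σ < 1) (hp : 0 ≤ p) :
    IntervalIntegrable (fun t : ℝ => zn σ t ^ p) volume a b :=
  (znp_cont hσ hp).intervalIntegrable _ _

/-- to the right of the line -/
theorem right_side {α : ℝ} (hα : 0 < α) (hα2 : α ≤ 2) : ∃ lam A : ℝ, 1 ≤ lam ∧ 1 ≤ A ∧ ∀ᶠ T : ℝ in atTop,
    ∀ δ : ℝ, lam / Real.log T ≤ δ → δ ≤ 1 / 16 →
      ∫ t in (T / 4)..(4 * T), zn (1 / 2 + δ) t ^ (2 * α) ≤ A * (T * Real.log T ^ (α ^ 2)) := by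
  obtain ⟨lam, hl, hup⟩ := up_all hα hα2
  obtain ⟨A, hA, hDD⟩ := DD_path hα hl
  have h4 : Tendsto (fun T : ℝ => 4 * T) atTop atTop := tendsto_id.const_mul_atTop (by norm_num)
  refine ⟨lam, 8 * A, hl, by linarith, ?_⟩
  filter_upwards [h4.eventually hup, hDD, eventually_gt_atTop 1] with T g1 g2 g3 δ hδ1 hδ2
  have hL : 0 < Real.log T := Real.log_pos g3
  have hT : 0 < T := by linarith
  have hL4 : Real.log T ≤ Real.log (4 * T) := Real.log_le_log hT (by linarith)
  have hl0 : 0 < lam := by linarith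
  have hδp : 0 < δ := lt_of_lt_of_le (div_pos hl0 hL) hδ1
  have h5 := g1 δ ((div_le_div_of_nonneg_left hl0.le hL hL4).trans hδ1) hδ2
  rw [mom_eq _ _ _ (by linarith : 0 < 4 * T), add_zero] at h5
  have h6 : DD α δ ≤ A * Real.log T ^ (α ^ 2) :=
    (DD_anti hα (div_pos hl0 hL) hδ1).trans g2
  have h7 : ∫ t in (T / 4)..(4 * T), zn (1 / 2 + δ) t ^ (2 * α) ≤
      ∫ t in (0:ℝ)..(4 * T), zn (1 / 2 + δ) t ^ (2 * α) := by
    have := intervalIntegral.integral_add_adjacent_intervals
      (zn_ii (σ := 1 / 2 + δ) (p := 2 * α) (a := 0) (b := T / 4) (by linarith) (by linarith))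
      (zn_ii (σ := 1 / 2 + δ) (p := 2 * α) (a := T / 4) (b := 4 * T) (by linarith) (by linarith))
    have h8 : 0 ≤ ∫ t in (0:ℝ)..(T / 4), zn (1 / 2 + δ) t ^ (2 * α) :=
      intervalIntegral.integral_nonneg (by linarith) fun t _ => Real.rpow_nonneg (zn_nonneg _ _) _
    linarith
  rw [inv_mul_eq_div, div_le_iff₀ (by linarith : 0 < 4 * T)] at h5
  refine h7.trans (h5.trans ?_)
  calc 2 * DD α δ * (4 * T) ≤ 2 * (A * Real.log T ^ (α ^ 2)) * (4 * T) := by
        apply mul_le_mul_of_nonneg_right _ (by linarith)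
        linarith
    _ = _ := by ring

theorem t_OUT : P_OUT := by
  intro α hα hα2
  obtain ⟨lam, A, hl, hA, hR⟩ := right_side hα hα2
  obtain ⟨K0, hK0, hfe⟩ := Pool.Agent.Y914.LD.left_bound
  refine ⟨lam, hl, fun K hK => ⟨Real.exp ((K0 + 2 * K) * (2 * α)) * A, ?_, ?_⟩⟩
  · have h1 : 1 ≤ Real.exp ((K0 + 2 * K) * (2 * α)) := Real.one_le_exp (by
      have : 0 ≤ K := by linarith
      positivity)
    calc (1 : ℝ) = 1 * 1 := (one_mul 1).symm
      _ ≤ _ := mul_le_mul h1 hA (by norm_num) (Real.exp_pos _).le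
  · filter_upwards [hR, Real.tendsto_log_atTop.eventually_ge_atTop (16 * K), eventually_ge_atTop 4] with T g1 g2 g3 x hx1 hx2
    have hT : 0 < T := by linarith
    have hK1 : 1 ≤ K := by linarith
    have hK00 : 0 ≤ K := by linarith
    have hL : 0 < Real.log T := by linarith
    have hx16 : |x| ≤ 1 / 16 := by
      refine hx2.trans ?_
      rw [div_le_div_iff₀ hL (by norm_num)]
      linarith
    have hE1 : 1 ≤ Real.exp ((K0 + 2 * K) * (2 * α)) := Real.one_le_exp (by positivity)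
    have h2 := g1 |x| hx1 hx16
    have hint0 : 0 ≤ ∫ t in (T / 4)..(4 * T), zn (1 / 2 + |x|) t ^ (2 * α) :=
      intervalIntegral.integral_nonneg (by linarith) fun t _ => Real.rpow_nonneg (zn_nonneg _ _) _
    have h3 : ∫ t in (T / 4)..(4 * T), ‖riemannZeta (((1 / 2 + x : ℝ) : ℂ) + t * I)‖ ^ (2 * α) ≤
        Real.exp ((K0 + 2 * K) * (2 * α)) * ∫ t in (T / 4)..(4 * T), zn (1 / 2 + |x|) t ^ (2 * α) := by
      rcases le_total 0 x with h0 | h0
      · rw [abs_of_nonneg h0] at hint0 ⊢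
        exact le_mul_of_one_le_left hint0 hE1
      · rw [abs_of_nonpos h0] at hx1 hx2 hx16 ⊢
        have hab : T / 4 ≤ 4 * T := by linarith
        rw [← intervalIntegral.integral_const_mul]
        refine intervalIntegral.integral_mono_on hab
          (zn_ii (σ := 1 / 2 + x) (p := 2 * α) (by linarith) (by linarith))
          ((zn_ii (σ := 1 / 2 + -x) (p := 2 * α) (by linarith) (by linarith)).const_mul _) ?_
        intro t ht
        have ht1 : 1 ≤ t := by linarith [ht.1]
        have ht0 : 0 < t := by linarith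
        have h4 := hfe (-x) t (by linarith) (by linarith) ht1
        rw [sub_neg_eq_add] at h4
        have h5 : t ^ (-x) ≤ Real.exp (2 * K) := by
          rw [Real.rpow_def_of_pos ht0]
          apply Real.exp_le_exp.mpr
          have h6 : Real.log t ≤ 2 * Real.log T := by
            have h7 : Real.log t ≤ Real.log (4 * T) := Real.log_le_log ht0 ht.2
            rw [Real.log_mul (by norm_num) hT.ne'] at h7
            have h8 : Real.log 4 ≤ Real.log T := Real.log_le_log (by norm_num) (by linarith)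
            linarith
          calc Real.log t * -x ≤ (2 * Real.log T) * (K / Real.log T) :=
                mul_le_mul h6 hx2 (by linarith) (by positivity)
            _ = 2 * K := by field_simp
        have h9 : ‖riemannZeta (((1 / 2 + x : ℝ) : ℂ) + t * I)‖ ≤
            Real.exp (K0 + 2 * K) * zn (1 / 2 + -x) t := by
          refine h4.trans ?_
          rw [Real.exp_add]
          unfold zn
          gcongr
        calc ‖riemannZeta (((1 / 2 + x : ℝ) : ℂ) + t * I)‖ ^ (2 * α) ≤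
            (Real.exp (K0 + 2 * K) * zn (1 / 2 + -x) t) ^ (2 * α) :=
              Real.rpow_le_rpow (norm_nonneg _) h9 (by positivity)
          _ = _ := by
              rw [Real.mul_rpow (Real.exp_pos _).le (zn_nonneg _ _), ← Real.exp_mul]
    refine h3.trans ?_
    calc Real.exp ((K0 + 2 * K) * (2 * α)) * ∫ t in (T / 4)..(4 * T), zn (1 / 2 + |x|) t ^ (2 * α) ≤
        Real.exp ((K0 + 2 * K) * (2 * α)) * (A * (T * Real.log T ^ (α ^ 2))) :=
          mul_le_mul_of_nonneg_left h2 (Real.exp_pos _).le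
      _ = _ := by ring

end Pool.Agent.Y496.UP
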